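import Pool.Agent.SBX.F04

/-!
# MP_15c9d8_al : the exact Sobolev distance between the `L^r` matrix coefficient norm and the
unitary norm of a tempered representation
-/

open MeasureTheory
open scoped ENNReal

namespace Pool.Agent.Results.MP_15c9d8_al.ExactDistance

/-- Let `G` be a semisimple Lie group with finite centre (given by `LieData`) and `π` an irreducible
tempered unitary representation of `G`.  The asymptotic cone `AC(π) ⊆ 𝔤` of `π` consists of
nilpotent elements; let `ν(π)` be the maximum (which is attained) over `ξ ∈ AC(π)` of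
`rk(ξ) = ∑_{i ≥ 0} rank (ad ξ)^(2i+1)`.  Then for every `2 < r ≤ ∞` and every nonzero `K`-finite `w`
the norm `p^r(v) = ‖⟨w, π(·)v⟩‖_{L^r(G)}` and the unitary norm `q` satisfy
`d([p^r],[q]) = (ν(π)/4) (1 - 2/r)`, and `ν(π) = 0` only if `π` is finite-dimensional. -/
theorem result {N : ℕ} {G : Type} [Group G] [TopologicalSpace G] [IsTopologicalGroup G]
    [LocallyCompactSpace G] [T2Space G] [SecondCountableTopology G] [MeasurableSpace G]
    [BorelSpace G] {H : Type} [NormedAddCommGroup H] [InnerProductSpace ℂ H] [CompleteSpace H]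
    (L : SBD.LieData N G) (μ : Measure G) [μ.IsHaarMeasure] [μ.IsMulRightInvariant]
    (π : G →* (H ≃ₗᵢ[ℂ] H)) (hirr : SBD.IsIrr π) (ht : SBD.Tempered L π μ) :
    (∃ w ∈ SBD.KFin L π, w ≠ 0) ∧
    (∀ u ∈ SBD.KFin L π, ∀ s : ℝ, ∃! v : H, SBD.Sob L π s u v) ∧
    (∀ ξ ∈ SBD.AC L π, IsNilpotent ξ ∧ SBD.rk L ξ ≤ SBD.nu L π) ∧
    (∃ ξ ∈ SBD.AC L π, SBD.rk L ξ = SBD.nu L π) ∧
    (SBD.nu L π = 0 ↔ FiniteDimensional ℂ H) ∧
    ∀ r : ℝ≥0∞, 2 < r → ∀ w ∈ SBD.KFin L π, w ≠ 0 →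
      SBD.dist L π (SBD.pr π μ w r) SBD.qn =
        ENNReal.ofReal ((SBD.nu L π : ℝ) / 4) * (1 - 2 / r) :=
  SBD.final L μ π hirr ht

end Pool.Agent.Results.MP_15c9d8_al.ExactDistance
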